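import Pool.Agent.H40.GR.Final

/-!
# Topological graphs and natural grids: explicit linear bound and optimal counting

Let `k, l ≥ 1` and `c = (2 max(k, l)) ^ (2001 min(k, l))`.

(1) Every topological graph on `n` vertices without natural `(k, l)`-grid has at most `c n` edges
(the affirmative answer to Q1 of MP_b77b0a_co, for all topological graphs, simple or not, with an
explicit constant, polynomial in `l` for every fixed `k`).
(2) A topological graph with `n` vertices and `m ≥ 2 c n` edges has at least
`m ^ (2(k+l)-1) / (2 ^ (2(k+l)-1) (c n) ^ (2(k+l)-2))` natural `(k, l)`-grids (a crossing lemma for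
natural grids).
(3) This number is optimal up to a factor that depends on `k` and `l` only, for simple topological
graphs of every average degree.
(4) The constant in (1) cannot be smaller than `k + l - 1`, even for simple topological graphs.

The definitions `TopologicalGraph`, `Cross` and `HasNaturalGrid` are those of the library's file
`Helper234_Grid/Defs.lean`; `IsNaturalGrid`, `gridCount` are in `Pool/Agent/H40/GR/Count.lean`,
`IsSimple` in `Pool/Agent/H40/GR/Final.lean`.
-/

set_option autoImplicit false

namespace Pool.Agent.Results.MP_b77b0a_co.NaturalGridCrossingLemma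

open Pool.Agent.Helper234_Grid (TopologicalGraph)
open Pool.Agent.H40.GR

/-- **Natural grids in topological graphs.** -/
theorem result (k l : ℕ) (hk : 1 ≤ k) (hl : 1 ≤ l) :
    -- (1) the linear bound
    (∀ (V : Type) [Fintype V] (D : TopologicalGraph V), ¬ D.HasNaturalGrid k l →
      D.graph.edgeSet.ncard ≤ (2 * max k l) ^ (2001 * min k l) * Fintype.card V) ∧
    -- (2) the number of the natural grids
    (∀ (V : Type) [Fintype V] (D : TopologicalGraph V),
      2 * (2 * max k l) ^ (2001 * min k l) * Fintype.card V ≤ D.graph.edgeSet.ncard →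
      D.graph.edgeSet.ncard ^ (2 * (k + l) - 1) ≤
        2 ^ (2 * (k + l) - 1) *
          ((2 * max k l) ^ (2001 * min k l) * Fintype.card V) ^ (2 * (k + l) - 2) *
          gridCount D k l) ∧
    -- (3) (2) is sharp up to a factor depending on `k` and `l`
    (∀ a b : ℕ, 2 ≤ b → ∃ D : TopologicalGraph (Fin a × Fin b), IsSimple D ∧
      2 * D.graph.edgeSet.ncard = a * b * (b - 1) ∧
      gridCount D k l * (a * b) ^ (2 * (k + l) - 2) ≤
        4 ^ (k + l - 1) * D.graph.edgeSet.ncard ^ (2 * (k + l) - 1)) ∧
    -- (4) the constant in (1) is at least `k + l - 1`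
    (∀ a : ℕ, ∃ D : TopologicalGraph (Fin a × Fin (2 * (k + l) - 1)), IsSimple D ∧
      ¬ D.HasNaturalGrid k l ∧
      D.graph.edgeSet.ncard = (k + l - 1) * (a * (2 * (k + l) - 1))) := by
  refine ⟨fun V _ D h => linear_bound D k l hk hl h, fun V _ D h => count_bound' D k l hk hl h,
    fun a b hb => ⟨drawing a b, simple_convex _ _ _, two_edges a b, sharp k l hk hl a b hb⟩,
    fun a => ⟨drawing a (2 * (k + l) - 1), simple_convex _ _ _,
      count_zero k l hk hl (by omega), ?_⟩⟩
  have h1 : 2 * (drawing a (2 * (k + l) - 1)).graph.edgeSet.ncard =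
      a * (2 * (k + l) - 1) * (2 * (k + l) - 1 - 1) := two_edges a _
  have h2 : 2 * (k + l) - 1 - 1 = 2 * (k + l - 1) := by omega
  rw [h2] at h1
  have h3 : a * (2 * (k + l) - 1) * (2 * (k + l - 1)) =
      2 * ((k + l - 1) * (a * (2 * (k + l) - 1))) := by ring
  omega

end Pool.Agent.Results.MP_b77b0a_co.NaturalGridCrossingLemma
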